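import Pool.Agent.H15.TG.All
import Pool.Agent.H15.TG.Fin2

/-!
# Symplectic torus actions of dimension `m - 1` on affine space of dimension `2 m`
-/

set_option autoImplicit false

namespace Pool.Agent.Results.MP_51eb24_ag.CommutingUnipotent

open MvPolynomial

/-- The standard Poisson bracket of two polynomials in the coordinates `x_i` (index `inl i`) and
`y_i` (index `inr i`), `i < m`: the sum over `i` of `∂f/∂x_i ∂g/∂y_i - ∂f/∂y_i ∂g/∂x_i`. -/
noncomputable def bracket {k : Type} [Field k] {m : ℕ}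
    (f g : MvPolynomial (Fin m ⊕ Fin m) k) : MvPolynomial (Fin m ⊕ Fin m) k :=
  ∑ i : Fin m, (pderiv (Sum.inl i) f * pderiv (Sum.inr i) g -
    pderiv (Sum.inr i) f * pderiv (Sum.inl i) g)

/-- The action `ρ` of the torus `(kˣ)^d` is conjugate, by a symplectic automorphism `φ`, to the
diagonal action with weights `w i` on `x_i` and `-w i` on `y_i`. -/
def Diagonalizable {k : Type} [Field k] {m d : ℕ}
    (ρ : (Fin d → kˣ) →*
      (MvPolynomial (Fin m ⊕ Fin m) k ≃ₐ[k] MvPolynomial (Fin m ⊕ Fin m) k)) : Prop :=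
  ∃ φ : MvPolynomial (Fin m ⊕ Fin m) k ≃ₐ[k] MvPolynomial (Fin m ⊕ Fin m) k,
    (∀ f g, φ (bracket f g) = bracket (φ f) (φ g)) ∧
    ∃ w : Fin m → Fin d → ℤ, ∀ (t : Fin d → kˣ) (i : Fin m),
      (φ * ρ t * φ⁻¹) (X (Sum.inl i)) =
        C (((∏ l, (t l) ^ (w i l) : kˣ)) : k) * X (Sum.inl i) ∧
      (φ * ρ t * φ⁻¹) (X (Sum.inr i)) =
        C ((((∏ l, (t l) ^ (w i l))⁻¹ : kˣ)) : k) * X (Sum.inr i)

/-- Let `k` be algebraically closed of characteristic zero and let the torus `(kˣ)^d`,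
`d = m - 1`, act algebraically, with finite kernel, on affine space of dimension `2 m` by
symplectic automorphisms. Each of the following conditions is equivalent to the action being
conjugate, by a symplectic automorphism, to a diagonal action.

(1) The action commutes with a nontrivial algebraic action of the additive group by symplectic
automorphisms.

(2) There are nonconstant, pairwise Poisson commuting semi-invariants `f i` with locally
nilpotent brackets, whose weights `χ i` satisfy a nontrivial linear relation with nonnegative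
integer coefficients `n i`.

(3) If `m = 2` (one-dimensional tori, affine four-space): there is a symplectic automorphism `θ`
such that the orbit of the coordinate `θ x_i` is a polynomial in `t`, or in the inverse of `t`
(all weights occurring in `θ x_i` have the same sign); here `i` is any index. -/
theorem result (k : Type) [Field k] [IsAlgClosed k] [CharZero k] (m d : ℕ) (hd : d + 1 = m)
    (ρ : (Fin d → kˣ) →*
      (MvPolynomial (Fin m ⊕ Fin m) k ≃ₐ[k] MvPolynomial (Fin m ⊕ Fin m) k))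
    (halg : ∃ (N : ℕ) (F : Fin m ⊕ Fin m → MvPolynomial (Fin d ⊕ (Fin m ⊕ Fin m)) k),
      ∀ (t : Fin d → kˣ) (j : Fin m ⊕ Fin m),
        C ((∏ i, ((t i : kˣ) : k)) ^ N) * ρ t (X j) =
          aeval (Sum.elim (fun i : Fin d => C ((t i : kˣ) : k))
            (fun l : Fin m ⊕ Fin m => (X l : MvPolynomial (Fin m ⊕ Fin m) k))) (F j))
    (hsymp : ∀ (t : Fin d → kˣ) (f g : MvPolynomial (Fin m ⊕ Fin m) k),
      ρ t (bracket f g) = bracket (ρ t f) (ρ t g))
    (hker : {t : Fin d → kˣ | ρ t = 1}.Finite) :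
    (Diagonalizable ρ ↔
      ∃ σ : Multiplicative k →*
          (MvPolynomial (Fin m ⊕ Fin m) k ≃ₐ[k] MvPolynomial (Fin m ⊕ Fin m) k),
        (∃ F : Fin m ⊕ Fin m → Polynomial (MvPolynomial (Fin m ⊕ Fin m) k),
          ∀ (s : k) (j : Fin m ⊕ Fin m),
            σ (Multiplicative.ofAdd s) (X j) = (F j).eval (C s)) ∧
        (∀ s f g, σ s (bracket f g) = bracket (σ s f) (σ s g)) ∧
        (∃ s, σ s ≠ 1) ∧
        ∀ (s : Multiplicative k) (t : Fin d → kˣ), σ s * ρ t = ρ t * σ s) ∧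
    (Diagonalizable ρ ↔
      ∃ (r : ℕ) (f : Fin r → MvPolynomial (Fin m ⊕ Fin m) k) (χ : Fin r → Fin d → ℤ)
        (n : Fin r → ℕ),
        (∀ (i : Fin r) (t : Fin d → kˣ),
          ρ t (f i) = C (((∏ l, (t l) ^ (χ i l) : kˣ)) : k) * f i) ∧
        (∀ i : Fin r, ¬ ∃ c : k, f i = C c) ∧
        (∀ i j : Fin r, bracket (f i) (f j) = 0) ∧
        (∀ (i : Fin r) (g : MvPolynomial (Fin m ⊕ Fin m) k), ∃ N : ℕ,
          (bracket (f i))^[N] g = 0) ∧
        (∃ i : Fin r, n i ≠ 0) ∧ ∑ i, (n i : ℤ) • χ i = 0) ∧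
    (m = 2 → ∀ (i : Fin m) (l : Fin d),
      (Diagonalizable ρ ↔
        ∃ (θ : MvPolynomial (Fin m ⊕ Fin m) k ≃ₐ[k] MvPolynomial (Fin m ⊕ Fin m) k)
          (F : Polynomial (MvPolynomial (Fin m ⊕ Fin m) k)),
          (∀ f g, θ (bracket f g) = bracket (θ f) (θ g)) ∧
          ((∀ t : Fin d → kˣ, ρ t (θ (X (Sum.inl i))) = F.eval (C ((t l : kˣ) : k))) ∨
            ∀ t : Fin d → kˣ, ρ t (θ (X (Sum.inl i))) =
              F.eval (C (((t l)⁻¹ : kˣ) : k))))) := by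
  have key := Pool.Agent.H15.TG.final Pool.Agent.H15.TG.All.a_RPL Pool.Agent.H15.TG.All.a_MNA
    Pool.Agent.H15.TG.All.a_MNR Pool.Agent.H15.TG.All.a_PPC Pool.Agent.H15.TG.All.a_MNM
    Pool.Agent.H15.TG.All.a_ASL Pool.Agent.H15.TG.All.a_GNK Pool.Agent.H15.TG.All.a_REA
    Pool.Agent.H15.TG.All.a_REB Pool.Agent.H15.TG.All.a_PSE Pool.Agent.H15.TG.All.a_DTI
    Pool.Agent.H15.TG.All.a_FIK Pool.Agent.H15.TG.All.a_HMG Pool.Agent.H15.TG.All.a_FNC
    Pool.Agent.H2.ST.All.a_SPN Pool.Agent.H2.ST.All.a_SPL Pool.Agent.H2.ST.All.a_FNB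
    Pool.Agent.H2.ST.All.a_FIN Pool.Agent.H2.ST.All.a_GRD Pool.Agent.H2.ST.All.a_FIX
    Pool.Agent.H2.ST.All.a_DAR Pool.Agent.H2.ST.All.a_TRA Pool.Agent.H2.ST.All.a_CJG
    Pool.Agent.H15.TG.All.a_CCF Pool.Agent.H15.TG.All.a_SMC Pool.Agent.H15.TG.All.a_GAF
    Pool.Agent.H15.TG.All.a_CNV k m d hd ρ halg hsymp hker
  refine ⟨key.1, ?_, ?_⟩
  · refine key.2.1.trans ?_
    constructor
    · rintro ⟨r, f, χ, n, h1, h2, h3, h4, h5, h6⟩
      exact ⟨r, f, χ, n, fun i => (Pool.Agent.H15.TG.mem_Wt_iff (χ i) (f i)).1 (h1 i), h2, h3,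
        h4, h5, h6⟩
    · rintro ⟨r, f, χ, n, h1, h2, h3, h4, h5, h6⟩
      exact ⟨r, f, χ, n, fun i => (Pool.Agent.H15.TG.mem_Wt_iff (χ i) (f i)).2 (h1 i), h2, h3,
        h4, h5, h6⟩
  · intro hm i l
    subst hm
    obtain rfl : d = 1 := by omega
    have key2 := Pool.Agent.H15.TG.half Pool.Agent.H15.TG.All.a_RPL Pool.Agent.H15.TG.All.a_MNA
      Pool.Agent.H15.TG.All.a_MNR Pool.Agent.H15.TG.All.a_PPC Pool.Agent.H15.TG.All.a_MNM
      Pool.Agent.H15.TG.All.a_ASL Pool.Agent.H15.TG.All.a_GNK Pool.Agent.H15.TG.All.a_REA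
      Pool.Agent.H15.TG.All.a_REB Pool.Agent.H15.TG.All.a_PSE Pool.Agent.H15.TG.All.a_DTI
      Pool.Agent.H15.TG.All.a_FIK Pool.Agent.H15.TG.All.a_HMG Pool.Agent.H15.TG.All.a_FNC
      Pool.Agent.H2.ST.All.a_SPN Pool.Agent.H2.ST.All.a_SPL Pool.Agent.H2.ST.All.a_FNB
      Pool.Agent.H2.ST.All.a_FIN Pool.Agent.H2.ST.All.a_GRD Pool.Agent.H2.ST.All.a_FIX
      Pool.Agent.H2.ST.All.a_DAR Pool.Agent.H2.ST.All.a_TRA Pool.Agent.H2.ST.All.a_CJG
      Pool.Agent.H15.TG.All.a_CCF Pool.Agent.H15.TG.All.a_SMD Pool.Agent.H2.ST.All.a_CHI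
      k ρ halg hsymp hker i
    obtain rfl : l = 0 := Subsingleton.elim _ _
    exact key2

end Pool.Agent.Results.MP_51eb24_ag.CommutingUnipotent
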