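import Pool.Agent.H67.QT.Main

/-!
# Torus actions on affine space by automorphisms of degree at most two are linearizable
-/

set_option autoImplicit false

namespace Pool.Agent.Results.MP_51eb24_ag.QuadraticActions

open MvPolynomial

/-- Let `k` be algebraically closed of characteristic zero and let the torus `(kˣ)^d` act
algebraically on affine `n`-space. Let `e ≥ 2` and let `p` be a fixed point of the action; if
`e = 2`, then `p` may be any point. If the Taylor expansions at `p` of all coordinate functions of
all automorphisms of the action contain, besides terms of degree at most one, only terms of degree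
in `[e, 2 e - 2]`, then the action is linearizable, by an automorphism which, like its inverse,
has degree at most `2 e - 2`. For `e = 2` and `p = 0` the hypothesis says that the action is by
automorphisms of degree at most two. -/
theorem result (k : Type) [Field k] [IsAlgClosed k] [CharZero k] (n d e : ℕ) (he : 2 ≤ e)
    (p : Fin n → k)
    (ρ : (Fin d → kˣ) →* (MvPolynomial (Fin n) k ≃ₐ[k] MvPolynomial (Fin n) k))
    (halg : ∃ (m : ℕ) (F : Fin n → MvPolynomial (Fin d ⊕ Fin n) k),
      ∀ (t : Fin d → kˣ) (j : Fin n),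
        C ((∏ i, ((t i : kˣ) : k)) ^ m) * ρ t (X j) =
          aeval (Sum.elim (fun i : Fin d => C ((t i : kˣ) : k))
            (fun l : Fin n => (X l : MvPolynomial (Fin n) k))) (F j))
    (hp : e = 2 ∨ ∀ (t : Fin d → kˣ) (j : Fin n), eval p (ρ t (X j)) = p j)
    (hT : ∀ (t : Fin d → kˣ) (j : Fin n),
      ∀ m ∈ (aeval (fun i => X i + C (p i)) (ρ t (X j)) : MvPolynomial (Fin n) k).support,
        m.degree ≤ 1 ∨ (e ≤ m.degree ∧ m.degree ≤ 2 * e - 2)) :
    ∃ φ : MvPolynomial (Fin n) k ≃ₐ[k] MvPolynomial (Fin n) k,
      (∀ j, (φ (X j)).totalDegree ≤ 2 * e - 2 ∧ (φ⁻¹ (X j)).totalDegree ≤ 2 * e - 2) ∧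
      ∀ (t : Fin d → kˣ) (j : Fin n), ((φ * ρ t * φ⁻¹) (X j)).IsHomogeneous 1 :=
  Pool.Agent.H67.QT.main e he p ρ halg hp hT

end Pool.Agent.Results.MP_51eb24_ag.QuadraticActions
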