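import Pool.Agent.H19.SYA.Core3
import Pool.Agent.H19.SYA.All

/-!
# Symplectic torus actions on affine four-space
-/

set_option autoImplicit false

namespace Pool.Agent.Results.MP_51eb24_ag.SymplecticFourSpace

open MvPolynomial

/-- The standard Poisson bracket of two polynomials in the coordinates `x_i` (index `inl i`) and
`y_i` (index `inr i`), `i < m`: the sum over `i` of `∂f/∂x_i ∂g/∂y_i - ∂f/∂y_i ∂g/∂x_i`. -/
noncomputable def bracket {k : Type} [Field k] {m : ℕ}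
    (f g : MvPolynomial (Fin m ⊕ Fin m) k) : MvPolynomial (Fin m ⊕ Fin m) k :=
  ∑ i : Fin m, (pderiv (Sum.inl i) f * pderiv (Sum.inr i) g -
    pderiv (Sum.inr i) f * pderiv (Sum.inl i) g)

/-- Let `k` be algebraically closed of characteristic zero. Every algebraic action `ρ` of a torus
`(kˣ)^d` on affine four-space (coordinates `x_0, x_1, y_0, y_1`) by symplectic automorphisms is
conjugate, by a symplectic automorphism `φ`, to a diagonal action: `x_i ↦ t^(w i) x_i`,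
`y_i ↦ t^(-w i) y_i`. -/
theorem result (k : Type) [Field k] [IsAlgClosed k] [CharZero k] (d : ℕ)
    (ρ : (Fin d → kˣ) →*
      (MvPolynomial (Fin 2 ⊕ Fin 2) k ≃ₐ[k] MvPolynomial (Fin 2 ⊕ Fin 2) k))
    (halg : ∃ (N : ℕ) (F : Fin 2 ⊕ Fin 2 → MvPolynomial (Fin d ⊕ (Fin 2 ⊕ Fin 2)) k),
      ∀ (t : Fin d → kˣ) (j : Fin 2 ⊕ Fin 2),
        C ((∏ i, ((t i : kˣ) : k)) ^ N) * ρ t (X j) =
          aeval (Sum.elim (fun i : Fin d => C ((t i : kˣ) : k))
            (fun l : Fin 2 ⊕ Fin 2 => (X l : MvPolynomial (Fin 2 ⊕ Fin 2) k))) (F j))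
    (hsymp : ∀ (t : Fin d → kˣ) (f g : MvPolynomial (Fin 2 ⊕ Fin 2) k),
      ρ t (bracket f g) = bracket (ρ t f) (ρ t g)) :
    ∃ φ : MvPolynomial (Fin 2 ⊕ Fin 2) k ≃ₐ[k] MvPolynomial (Fin 2 ⊕ Fin 2) k,
      (∀ f g, φ (bracket f g) = bracket (φ f) (φ g)) ∧
      ∃ w : Fin 2 → Fin d → ℤ, ∀ (t : Fin d → kˣ) (i : Fin 2),
        (φ * ρ t * φ⁻¹) (X (Sum.inl i)) =
          C (((∏ l, (t l) ^ (w i l) : kˣ)) : k) * X (Sum.inl i) ∧
        (φ * ρ t * φ⁻¹) (X (Sum.inr i)) =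
          C ((((∏ l, (t l) ^ (w i l))⁻¹ : kˣ)) : k) * X (Sum.inr i) :=
  Pool.Agent.H19.SYA.main_dia Pool.Agent.H19.SYA.All.a_NOH ρ halg hsymp

end Pool.Agent.Results.MP_51eb24_ag.SymplecticFourSpace
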