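import Pool.Agent.H2.ST.All

/-!
# Symplectic torus actions on affine space: linearization and splitting
-/

set_option autoImplicit false

namespace Pool.Agent.Results.MP_51eb24_ag.SymplecticTori

open MvPolynomial

/-- The standard Poisson bracket of two polynomials in the coordinates `x_i` (index `inl i`) and
`y_i` (index `inr i`), `i < m`: the sum over `i` of `∂f/∂x_i ∂g/∂y_i - ∂f/∂y_i ∂g/∂x_i`. -/
noncomputable def bracket {k : Type} [Field k] {m : ℕ}
    (f g : MvPolynomial (Fin m ⊕ Fin m) k) : MvPolynomial (Fin m ⊕ Fin m) k :=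
  ∑ i : Fin m, (pderiv (Sum.inl i) f * pderiv (Sum.inr i) g -
    pderiv (Sum.inr i) f * pderiv (Sum.inl i) g)

/-- Let `k` be algebraically closed of characteristic zero and let the torus `(kˣ)^d` act
algebraically, with finite kernel, on affine space of dimension `2 m` by symplectic automorphisms.

(1) If `d = m`, or if `d = m - 1` and the action has infinitely many fixed points, then a
symplectic automorphism conjugates the action to a diagonal one.

(2) Let `p` be a fixed point at which the differentials of the invariant polynomials span a space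
of dimension at least `2 (m - d)` (the fixed locus has the largest possible dimension). Then there
are semi-invariants `u_i`, `v_i`, `i < d`, of opposite weights, with `{u_i, v_j} = δ_ij`,
`{u_i, u_j} = {v_i, v_j} = 0`, such that the polynomials commuting with all `u_i`, `v_i` are
invariant under the torus and generate, together with the `u_i` and `v_i`, the polynomial ring. -/
theorem result (k : Type) [Field k] [IsAlgClosed k] [CharZero k] (m d : ℕ)
    (ρ : (Fin d → kˣ) →*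
      (MvPolynomial (Fin m ⊕ Fin m) k ≃ₐ[k] MvPolynomial (Fin m ⊕ Fin m) k))
    (halg : ∃ (N : ℕ) (F : Fin m ⊕ Fin m → MvPolynomial (Fin d ⊕ (Fin m ⊕ Fin m)) k),
      ∀ (t : Fin d → kˣ) (j : Fin m ⊕ Fin m),
        C ((∏ i, ((t i : kˣ) : k)) ^ N) * ρ t (X j) =
          aeval (Sum.elim (fun i : Fin d => C ((t i : kˣ) : k))
            (fun l : Fin m ⊕ Fin m => (X l : MvPolynomial (Fin m ⊕ Fin m) k))) (F j))
    (hsymp : ∀ (t : Fin d → kˣ) (f g : MvPolynomial (Fin m ⊕ Fin m) k),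
      ρ t (bracket f g) = bracket (ρ t f) (ρ t g))
    (hker : {t : Fin d → kˣ | ρ t = 1}.Finite) :
    ((d = m ∨ (d + 1 = m ∧
        {p : Fin m ⊕ Fin m → k | ∀ (t : Fin d → kˣ) (f : MvPolynomial (Fin m ⊕ Fin m) k),
          eval p (ρ t f) = eval p f}.Infinite)) →
      ∃ φ : MvPolynomial (Fin m ⊕ Fin m) k ≃ₐ[k] MvPolynomial (Fin m ⊕ Fin m) k,
        (∀ f g, φ (bracket f g) = bracket (φ f) (φ g)) ∧
        ∃ w : Fin m → Fin d → ℤ, ∀ (t : Fin d → kˣ) (i : Fin m),
          (φ * ρ t * φ⁻¹) (X (Sum.inl i)) =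
            C (((∏ l, (t l) ^ (w i l) : kˣ)) : k) * X (Sum.inl i) ∧
          (φ * ρ t * φ⁻¹) (X (Sum.inr i)) =
            C ((((∏ l, (t l) ^ (w i l))⁻¹ : kˣ)) : k) * X (Sum.inr i)) ∧
    (∀ p : Fin m ⊕ Fin m → k,
      (∀ (t : Fin d → kˣ) (f : MvPolynomial (Fin m ⊕ Fin m) k),
        eval p (ρ t f) = eval p f) →
      2 * (m - d) ≤ Module.finrank k (Submodule.span k
        {g : Fin m ⊕ Fin m → k | ∃ f : MvPolynomial (Fin m ⊕ Fin m) k,
          (∀ t : Fin d → kˣ, ρ t f = f) ∧ g = fun s => eval p (pderiv s f)}) →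
      ∃ (u v : Fin d → MvPolynomial (Fin m ⊕ Fin m) k) (w : Fin d → Fin d → ℤ),
        (∀ (t : Fin d → kˣ) (i : Fin d),
          ρ t (u i) = C (((∏ l, (t l) ^ (w i l) : kˣ)) : k) * u i ∧
          ρ t (v i) = C ((((∏ l, (t l) ^ (w i l))⁻¹ : kˣ)) : k) * v i) ∧
        (∀ i j, bracket (u i) (v j) = if i = j then 1 else 0) ∧
        (∀ i j, bracket (u i) (u j) = 0) ∧ (∀ i j, bracket (v i) (v j) = 0) ∧
        (∀ f : MvPolynomial (Fin m ⊕ Fin m) k,
          (∀ i, bracket f (u i) = 0 ∧ bracket f (v i) = 0) → ∀ t : Fin d → kˣ, ρ t f = f) ∧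
        ∀ f : MvPolynomial (Fin m ⊕ Fin m) k, f ∈ Algebra.adjoin k
          ({g | ∀ i, bracket g (u i) = 0 ∧ bracket g (v i) = 0} ∪
            (Set.range u ∪ Set.range v))) := by
  refine ⟨fun h => ?_, fun p hp hF => ?_⟩
  · exact Pool.Agent.H2.ST.asm Pool.Agent.H2.ST.All.a_DAR Pool.Agent.H2.ST.All.a_TRA
      Pool.Agent.H2.ST.All.a_CJG Pool.Agent.H2.ST.All.a_GEN Pool.Agent.H2.ST.All.a_INF
      Pool.Agent.H2.ST.All.a_GRD Pool.Agent.H2.ST.All.a_FIX Pool.Agent.H2.ST.All.a_SPN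
      Pool.Agent.H2.ST.All.a_LIN Pool.Agent.H2.ST.All.a_SPL Pool.Agent.H2.ST.All.a_FNA
      Pool.Agent.H2.ST.All.a_FNB Pool.Agent.H2.ST.All.a_FIN ρ halg hsymp hker h
  · exact Pool.Agent.H2.ST.asm_split Pool.Agent.H2.ST.All.a_DAR Pool.Agent.H2.ST.All.a_TRA
      Pool.Agent.H2.ST.All.a_CJG Pool.Agent.H2.ST.All.a_GRD Pool.Agent.H2.ST.All.a_SPN
      Pool.Agent.H2.ST.All.a_LIN Pool.Agent.H2.ST.All.a_SPL Pool.Agent.H2.ST.All.a_NPS
      Pool.Agent.H2.ST.All.a_SPG Pool.Agent.H2.ST.All.a_KFC ρ halg hsymp hker p hp hF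

end Pool.Agent.Results.MP_51eb24_ag.SymplecticTori
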